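import Pool.Agent.TH246.PR.Planar

set_option autoImplicit false

/-!
One tournament with 64 vertices for all planar oriented graphs.
-/

namespace Pool.Agent.Results.MP_55dd22_co.PlanarSixtyFour

open Pool.Agent.H239R2.Planar (IsPlanar)
open Pool.Agent.TH246.PR (F8 dot planar_good)

/-- `A` is the set of arcs of an oriented graph: no loops, and at most one arc between two
vertices. -/
def IsOriented {V : Type} (A : V → V → Prop) : Prop := ∀ u v, A u v → ¬ A v u

/-- A tournament: no loops, and exactly one arc between two different vertices. -/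
def IsTournament {W : Type} (H : W → W → Prop) : Prop :=
  (∀ x, ¬ H x x) ∧ ∀ x y, x ≠ y → (H x y ↔ ¬ H y x)

/-- The underlying simple graph. -/
def under {V : Type} (A : V → V → Prop) : SimpleGraph V := SimpleGraph.fromRel A

/-- the target -/
noncomputable def tgt (e : F8 ≃ Fin 8) (x y : F8 × F8) : Prop :=
  if x.1 = y.1 then e x.2 < e y.2
  else (if e x.1 < e y.1 then (1 : ZMod 2) else 0) + dot (x.1 + y.1) (x.2 + y.2) = 1

theorem dot_comm2 (x y : F8 × F8) :
    dot (x.1 + y.1) (x.2 + y.2) = dot (y.1 + x.1) (y.2 + x.2) := by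
  rw [add_comm x.1, add_comm x.2]

theorem zmod2_cases (a : ZMod 2) : a = 0 ∨ a = 1 := by
  revert a; decide

theorem tgt_tournament (e : F8 ≃ Fin 8) : IsTournament (tgt e) := by
  constructor
  · intro x h
    unfold tgt at h
    rw [if_pos rfl] at h
    exact lt_irrefl _ h
  · intro x y hxy
    by_cases h1 : x.1 = y.1
    · have h2 : x.2 ≠ y.2 := fun h => hxy (Prod.ext h1 h)
      unfold tgt
      rw [if_pos h1, if_pos h1.symm, not_lt]
      constructor
      · exact fun h => h.le
      · intro h
        exact lt_of_le_of_ne h (fun h' => h2 (e.injective h'))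
    · have h1' : ¬ y.1 = x.1 := fun h => h1 h.symm
      unfold tgt
      rw [if_neg h1, if_neg h1', dot_comm2 y x]
      have hne : e x.1 ≠ e y.1 := fun h => h1 (e.injective h)
      rcases lt_or_gt_of_ne hne with h | h
      · rw [if_pos h, if_neg (not_lt.2 h.le)]
        rcases zmod2_cases (dot (x.1 + y.1) (x.2 + y.2)) with h3 | h3 <;> rw [h3] <;> decide
      · rw [if_neg (not_lt.2 h.le), if_pos h]
        rcases zmod2_cases (dot (x.1 + y.1) (x.2 + y.2)) with h3 | h3 <;> rw [h3] <;> decide

theorem card64 : Fintype.card (F8 × F8) = 64 := by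
  simp [F8]

theorem card8 : Fintype.card F8 = 8 := by
  simp [F8]

/-- **Planar oriented graphs have oriented chromatic number at most 64.** There is one tournament
on 64 vertices to which every finite planar oriented graph has a homomorphism. -/
theorem result : ∃ H : Fin 64 → Fin 64 → Prop, IsTournament H ∧
    ∀ (V : Type) [Finite V] (A : V → V → Prop), IsOriented A → IsPlanar (under A) →
      ∃ f : V → Fin 64, ∀ u v, A u v → H (f u) (f v) := by
  classical
  let e : F8 ≃ Fin 8 := Fintype.equivFinOfCardEq card8
  let g : F8 × F8 ≃ Fin 64 := Fintype.equivFinOfCardEq card64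
  have hT := tgt_tournament e
  refine ⟨fun x y => tgt e (g.symm x) (g.symm y), ⟨fun x => hT.1 _, fun x y hxy =>
    hT.2 _ _ (fun h => hxy (g.symm.injective h))⟩, ?_⟩
  intro V _ A hA hP
  obtain ⟨w, hw⟩ := planar_good (under A) hP
  let c : V → V → ZMod 2 := fun u v =>
    if A u v then (if e (w u) < e (w v) then 0 else 1)
    else if A v u then (if e (w v) < e (w u) then 0 else 1) else 0
  have hc : ∀ u v, c u v = c v u := by
    intro u v
    simp only [c]
    by_cases h1 : A u v
    · have h2 := hA u v h1
      rw [if_pos h1, if_neg h2, if_pos h1]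
    · by_cases h2 : A v u
      · rw [if_neg h1, if_pos h2, if_pos h2]
      · rw [if_neg h1, if_neg h2, if_neg h2, if_neg h1]
  obtain ⟨s, hs⟩ := hw c hc
  refine ⟨fun v => g (w v, s v), ?_⟩
  intro u v huv
  have hne : u ≠ v := by rintro rfl; exact hA u u huv huv
  have hadj : (under A).Adj u v := by
    unfold under
    rw [SimpleGraph.fromRel_adj]
    exact ⟨hne, Or.inl huv⟩
  have h1 := hs u v hadj
  simp only [Equiv.symm_apply_apply]
  unfold tgt
  have hwne : w u ≠ w v := by
    intro h
    obtain ⟨s', hs'⟩ := hw (fun _ _ => 1) (fun _ _ => rfl)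
    have := hs' u v hadj
    rw [h] at this
    have h0 : w v + w v = 0 := by
      funext i
      have : ∀ a : ZMod 2, a + a = 0 := by decide
      exact this _
    rw [h0] at this
    simp [dot] at this
  rw [if_neg hwne, h1]
  simp only [c]
  rw [if_pos huv]
  by_cases h2 : e (w u) < e (w v)
  · rw [if_pos h2, if_pos h2]; decide
  · rw [if_neg h2, if_neg h2]; decide

end Pool.Agent.Results.MP_55dd22_co.PlanarSixtyFour
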